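import Mathlib

/-!
# [T7X-F6] `24 p = u² + 23 v²`
-/

set_option autoImplicit false

namespace T7X

/-- equivalence of the form `(a, b, c)` with `(1, 1, 6)` or `(2, 1, 3)` -/
def Rp (a b c : ℤ) : Prop := ∃ p q r s : ℤ,
  (a = p ^ 2 + p * r + 6 * r ^ 2 ∧ b = 2 * p * q + (p * s + q * r) + 12 * r * s ∧ c = q ^ 2 + q * s + 6 * s ^ 2) ∨
  (a = 2 * p ^ 2 + p * r + 3 * r ^ 2 ∧ b = 4 * p * q + (p * s + q * r) + 6 * r * s ∧ c = 2 * q ^ 2 + q * s + 3 * s ^ 2)

theorem Rp_shift {a b c k : ℤ} (h : Rp a (b + 2 * k * a) (a * k ^ 2 + b * k + c)) : Rp a b c := by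
  obtain ⟨p, q, r, s, h⟩ := h
  refine ⟨p, q - k * p, r, s - k * r, ?_⟩
  rcases h with ⟨h1, h2, h3⟩ | ⟨h1, h2, h3⟩
  · left
    refine ⟨h1, ?_, ?_⟩
    · linear_combination h2 - 2 * k * h1
    · linear_combination h3 - k * h2 + k ^ 2 * h1
  · right
    refine ⟨h1, ?_, ?_⟩
    · linear_combination h2 - 2 * k * h1
    · linear_combination h3 - k * h2 + k ^ 2 * h1

theorem Rp_swap {a b c : ℤ} (h : Rp c (-b) a) : Rp a b c := by
  obtain ⟨p, q, r, s, h⟩ := h
  refine ⟨-q, p, -s, r, ?_⟩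
  rcases h with ⟨h1, h2, h3⟩ | ⟨h1, h2, h3⟩
  · left
    exact ⟨by linear_combination h3, by linear_combination -h2, by linear_combination h1⟩
  · right
    exact ⟨by linear_combination h3, by linear_combination -h2, by linear_combination h1⟩

theorem reduce (n : ℕ) : ∀ a b c : ℤ, 0 < a → a ≤ n → b ^ 2 - 4 * a * c = -23 → Rp a b c := by
  induction n using Nat.strong_induction_on with
  | _ n ih =>
    intro a b c ha han hd
    obtain ⟨k, hk⟩ : ∃ k : ℤ, k = -((b + a) / (2 * a)) := ⟨_, rfl⟩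
    have h1 := Int.emod_add_mul_ediv (b + a) (2 * a)
    have h2 := Int.emod_nonneg (b + a) (show (2 * a) ≠ 0 by omega)
    have h3 := Int.emod_lt_of_pos (b + a) (show 0 < 2 * a by omega)
    have h4 : (b + a) / (2 * a) = -k := by rw [hk]; ring
    rw [h4] at h1
    apply Rp_shift (k := k)
    obtain ⟨b', hb'⟩ : ∃ b', b' = b + 2 * k * a := ⟨_, rfl⟩
    obtain ⟨c', hc'⟩ : ∃ c', c' = a * k ^ 2 + b * k + c := ⟨_, rfl⟩
    rw [← hb', ← hc']
    have hd' : b' ^ 2 - 4 * a * c' = -23 := by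
      rw [hb', hc']
      linear_combination hd
    have hb1 : -a ≤ b' := by
      rw [hb']
      linarith
    have hb2 : b' ≤ a := by
      rw [hb']
      linarith
    have hc0 : 0 < c' := by
      by_contra hneg
      push Not at hneg
      nlinarith [sq_nonneg b', mul_nonneg ha.le (neg_nonneg.2 hneg)]
    by_cases hca : c' < a
    · apply Rp_swap
      refine ih c'.toNat (by omega) c' (-b') a hc0 (by omega) ?_
      linear_combination hd'
    · push Not at hca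
      have h5 : 3 * a ^ 2 ≤ 23 := by
        have : b' ^ 2 ≤ a ^ 2 := by nlinarith
        nlinarith
      have h6 : a < 3 := by nlinarith
      have h7 : a = 1 ∨ a = 2 := by omega
      rcases h7 with rfl | rfl
      · have h8 : b' = -1 ∨ b' = 0 ∨ b' = 1 := by omega
        rcases h8 with rfl | rfl | rfl
        · exact ⟨1, 0, 0, -1, Or.inl ⟨by norm_num, by norm_num, by linarith⟩⟩
        · omega
        · exact ⟨1, 0, 0, 1, Or.inl ⟨by norm_num, by norm_num, by linarith⟩⟩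
      · have h8 : b' = -2 ∨ b' = -1 ∨ b' = 0 ∨ b' = 1 ∨ b' = 2 := by omega
        rcases h8 with rfl | rfl | rfl | rfl | rfl
        · omega
        · exact ⟨1, 0, 0, -1, Or.inr ⟨by norm_num, by norm_num, by linarith⟩⟩
        · omega
        · exact ⟨1, 0, 0, 1, Or.inr ⟨by norm_num, by norm_num, by linarith⟩⟩
        · omega

theorem neg23 {p : ℕ} (hp : p.Prime) (h4 : p % 4 = 3) (h23 : p ≠ 23) (hs : IsSquare ((p : ℕ) : ZMod 23)) :
    ∃ w : ℤ, (p : ℤ) ∣ w ^ 2 + 23 := by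
  have := Fact.mk hp
  have : Fact (Nat.Prime 23) := ⟨by norm_num⟩
  have h1 := (ZMod.exists_sq_eq_prime_iff_of_mod_four_eq_three (p := 23) (q := p) (by norm_num) h4 (Ne.symm h23)).1 hs
  have h2 : ¬ IsSquare (-1 : ZMod p) := by
    rw [ZMod.exists_sq_eq_neg_one_iff]
    omega
  have h0 : ((23 : ℕ) : ZMod p) ≠ 0 := by
    intro h
    rw [ZMod.natCast_eq_zero_iff] at h
    exact h23 ((Nat.prime_dvd_prime_iff_eq hp (by norm_num)).1 h)
  have h3 : quadraticChar (ZMod p) ((23 : ℕ) : ZMod p) = -1 := (quadraticChar_neg_one_iff_not_isSquare).2 h1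
  have h5 : quadraticChar (ZMod p) (-1 : ZMod p) = -1 := (quadraticChar_neg_one_iff_not_isSquare).2 h2
  have h6 : quadraticChar (ZMod p) (-1 * ((23 : ℕ) : ZMod p)) = 1 := by
    rw [map_mul, h3, h5]
    norm_num
  have h7 : (-1 * ((23 : ℕ) : ZMod p)) ≠ 0 := mul_ne_zero (by
    intro h
    rw [neg_eq_zero] at h
    exact one_ne_zero h) h0
  obtain ⟨x, hx⟩ := (quadraticChar_one_iff_isSquare h7).1 h6
  refine ⟨(x.val : ℤ), ?_⟩
  rw [← ZMod.intCast_zmod_eq_zero_iff_dvd]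
  push_cast
  rw [ZMod.natCast_zmod_val]
  push_cast at hx
  linear_combination -hx

/-- `24 p = u² + 23 v²` with `u`, `v` prime to `6` -/
theorem exists_uv {p : ℕ} (hp : p.Prime) (h4 : p % 4 = 3) (h23 : p ≠ 23) (h3 : p ≠ 3)
    (hs : IsSquare ((p : ℕ) : ZMod 23)) : ∃ u v : ℤ, u ^ 2 + 23 * v ^ 2 = 24 * p ∧ u % 2 = 1 ∧ v % 2 = 1 ∧
    u % 3 ≠ 0 ∧ v % 3 ≠ 0 := by
  obtain ⟨w, hw⟩ := neg23 hp h4 h23 hs
  obtain ⟨z, hz, hzo⟩ : ∃ z : ℤ, (p : ℤ) ∣ z ^ 2 + 23 ∧ z % 2 = 1 := by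
    rcases Int.emod_two_eq_zero_or_one w with h | h
    · refine ⟨w + p, ?_, by omega⟩
      obtain ⟨c, hc⟩ := hw
      exact ⟨c + 2 * w + p, by linear_combination hc⟩
    · exact ⟨w, hw, h⟩
  have h5 : (4 : ℤ) ∣ z ^ 2 + 23 := by
    obtain ⟨y, hy⟩ : ∃ y, z = 2 * y + 1 := ⟨z / 2, by omega⟩
    exact ⟨y ^ 2 + y + 6, by rw [hy]; ring⟩
  have h6 : IsCoprime (4 : ℤ) (p : ℤ) := by
    have : Nat.Coprime 4 p := by
      rw [show (4 : ℕ) = 2 ^ 2 by norm_num]
      apply Nat.Coprime.pow_left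
      exact (Nat.coprime_primes (by norm_num) hp).2 (by rintro rfl; norm_num at h4)
    exact_mod_cast (Nat.isCoprime_iff_coprime.2 this)
  obtain ⟨c, hc⟩ := h6.mul_dvd h5 hz
  have hp0 : (0 : ℤ) < p := by exact_mod_cast hp.pos
  have h7 := reduce p (p : ℤ) z c hp0 (le_refl _) (by linear_combination hc)
  have hp3 : (p : ℤ) % 3 ≠ 0 := by
    intro h
    have : 3 ∣ p := by omega
    exact h3 ((Nat.prime_dvd_prime_iff_eq (by norm_num) hp).1 this).symm
  have hpo : (p : ℤ) % 2 = 1 := by omega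
  obtain ⟨x, _, y, _, h⟩ := h7
  rcases h with ⟨h, -, -⟩ | ⟨h, -, -⟩
  · have ho : x % 2 = 1 ∧ y % 2 = 0 := by
      rcases Int.emod_two_eq_zero_or_one x with hx | hx <;> rcases Int.emod_two_eq_zero_or_one y with hy | hy
      · obtain ⟨a, rfl⟩ : ∃ a, x = 2 * a := ⟨x / 2, by omega⟩
        obtain ⟨b, rfl⟩ : ∃ b, y = 2 * b := ⟨y / 2, by omega⟩
        exfalso
        have : (p : ℤ) = 2 * (2 * a ^ 2 + 2 * a * b + 12 * b ^ 2) := by rw [h]; ring
        omega
      · obtain ⟨a, rfl⟩ : ∃ a, x = 2 * a := ⟨x / 2, by omega⟩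
        exfalso
        have : (p : ℤ) = 2 * (2 * a ^ 2 + a * y + 3 * y ^ 2) := by rw [h]; ring
        omega
      · exact ⟨hx, hy⟩
      · obtain ⟨a, rfl⟩ : ∃ a, x = 2 * a + 1 := ⟨x / 2, by omega⟩
        obtain ⟨b, rfl⟩ : ∃ b, y = 2 * b + 1 := ⟨y / 2, by omega⟩
        exfalso
        have : (p : ℤ) = 2 * ((2 * a + 1) * (a + b + 1) + 3 * (2 * b + 1) ^ 2) := by rw [h]; ring
        omega
    have hm : (x + y) % 3 ≠ 0 := by
      intro hm
      obtain ⟨a, ha⟩ : ∃ a, x + y = 3 * a := ⟨(x + y) / 3, by omega⟩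
      have : (p : ℤ) = 3 * (x * a + 2 * y ^ 2) := by
        rw [h]
        linear_combination x * ha
      omega
    refine ⟨x - 11 * y, x + y, ?_, by omega, by omega, by omega, hm⟩
    rw [h]
    ring
  · have ho : x % 2 = 0 ∧ y % 2 = 1 := by
      rcases Int.emod_two_eq_zero_or_one x with hx | hx <;> rcases Int.emod_two_eq_zero_or_one y with hy | hy
      · obtain ⟨b, rfl⟩ : ∃ b, y = 2 * b := ⟨y / 2, by omega⟩
        exfalso
        have : (p : ℤ) = 2 * (x ^ 2 + x * b + 6 * b ^ 2) := by rw [h]; ring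
        omega
      · exact ⟨hx, hy⟩
      · obtain ⟨b, rfl⟩ : ∃ b, y = 2 * b := ⟨y / 2, by omega⟩
        exfalso
        have : (p : ℤ) = 2 * (x ^ 2 + x * b + 6 * b ^ 2) := by rw [h]; ring
        omega
      · obtain ⟨a, rfl⟩ : ∃ a, x = 2 * a + 1 := ⟨x / 2, by omega⟩
        obtain ⟨b, rfl⟩ : ∃ b, y = 2 * b + 1 := ⟨y / 2, by omega⟩
        exfalso
        have : (p : ℤ) = 2 * ((2 * a + 1) ^ 2 + (2 * b + 1) * (a + 3 * b + 2)) := by rw [h]; ring
        omega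
    have hm : (x - y) % 3 ≠ 0 := by
      intro hm
      obtain ⟨a, ha⟩ : ∃ a, x - y = 3 * a := ⟨(x - y) / 3, by omega⟩
      have : (p : ℤ) = 3 * (x ^ 2 - x * a + y ^ 2) := by
        rw [h]
        linear_combination (-x) * ha
      omega
    refine ⟨5 * x + 7 * y, x - y, ?_, by omega, by omega, by omega, hm⟩
    rw [h]
    ring

end T7X
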