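import Pool.Agent.T7X.F5
import Pool.Agent.T7X.F6

/-!
# [T7X-F7] a prime `p` with `τ(p) = 0` is not a square modulo `23`
-/

set_option autoImplicit false

open PowerSeries
open N19 (ex)
open NC11 (D)
open E8X (Sg Dl F3Cl J)
open T5X (E E_zero iv iv_mul D_E)

namespace T7X

theorem sign_six {u : ℤ} (h2 : u % 2 = 1) (h3 : u % 3 ≠ 0) : ∃ x : ℤ, (6 * x - 1) ^ 2 = u ^ 2 := by
  have h : u % 6 = 1 ∨ u % 6 = 5 := by omega
  rcases h with h | h
  · refine ⟨-(u / 6), ?_⟩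
    have h1 : 6 * (-(u / 6)) - 1 = -u := by omega
    rw [h1]
    ring
  · refine ⟨(u + 1) / 6, ?_⟩
    have h1 : 6 * ((u + 1) / 6) - 1 = u := by omega
    rw [h1]

theorem two_sol {p : ℕ} (hp : p.Prime) (hp2 : p ≠ 2) (hp3 : p ≠ 3) {x y s t : ℤ}
    (h1 : (6 * x - 1) ^ 2 + 23 * (6 * y - 1) ^ 2 = 24 * p) (h2 : (6 * s - 1) ^ 2 + 23 * (6 * t - 1) ^ 2 = 24 * p)
    (hne : (6 * t - 1) ^ 2 ≠ (6 * y - 1) ^ 2) :
    Even (x + y) ∧ (12 * (6 * t - 1)) ^ 2 = ((6 * x - 1) + 11 * (6 * y - 1)) ^ 2 := by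
  have hpp : Prime (p : ℤ) := Nat.prime_iff_prime_int.1 hp
  have hp0 : (p : ℤ) ≠ 0 := hpp.ne_zero
  have hpo : (p : ℤ) % 2 = 1 := by
    have := hp.eq_two_or_odd.resolve_left hp2
    omega
  have hpt : (p : ℤ) % 3 ≠ 0 := by
    intro h
    have : 3 ∣ p := by omega
    exact hp3 ((Nat.prime_dvd_prime_iff_eq (by norm_num) hp).1 this).symm
  obtain ⟨u, hu⟩ : ∃ u, u = 6 * x - 1 := ⟨_, rfl⟩
  obtain ⟨v, hv⟩ : ∃ v, v = 6 * y - 1 := ⟨_, rfl⟩
  obtain ⟨a, ha⟩ : ∃ a, a = 6 * s - 1 := ⟨_, rfl⟩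
  obtain ⟨b, hb⟩ : ∃ b, b = 6 * t - 1 := ⟨_, rfl⟩
  rw [← hu, ← hv] at h1
  rw [← ha, ← hb] at h2
  rw [← hb, ← hv] at hne
  rw [← hu, ← hv, ← hb]
  have hprod : (p : ℤ) ∣ (u * b - v * a) * (u * b + v * a) :=
    ⟨24 * (b ^ 2 - v ^ 2), by linear_combination b ^ 2 * h1 - v ^ 2 * h2⟩
  rcases hpp.dvd_or_dvd hprod with ⟨B, hB⟩ | ⟨B, hB⟩
  · exfalso
    have h3 : (p : ℤ) ∣ (u * a + 23 * v * b) ^ 2 :=
      ⟨576 * p - 23 * p * B ^ 2, by linear_combination (a ^ 2 + 23 * b ^ 2) * h1 + 24 * p * h2 -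
        23 * (u * b - v * a + p * B) * hB⟩
    obtain ⟨A, hA⟩ := hpp.dvd_of_dvd_pow h3
    have h4 : A ^ 2 + 23 * B ^ 2 = 576 := by
      have h5 : (p : ℤ) ^ 2 * (A ^ 2 + 23 * B ^ 2) = p ^ 2 * 576 := by
        linear_combination (a ^ 2 + 23 * b ^ 2) * h1 + 24 * p * h2 - 23 * (u * b - v * a + p * B) * hB -
          (u * a + 23 * v * b + p * A) * hA
      exact mul_left_cancel₀ (pow_ne_zero 2 hp0) h5
    have h5 : (p : ℤ) * B = 6 * (6 * x * t - x - t - 6 * y * s + y + s) := by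
      rw [← hB, hu, hv, ha, hb]
      ring
    have h6 : (6 : ℤ) ∣ B := by
      have h7 : IsCoprime (6 : ℤ) (p : ℤ) := by
        have h8 : Nat.Coprime 6 p := by
          rw [show (6 : ℕ) = 2 * 3 by norm_num]
          exact Nat.Coprime.mul_left ((Nat.coprime_primes (by norm_num) hp).2 (Ne.symm hp2))
            ((Nat.coprime_primes (by norm_num) hp).2 (Ne.symm hp3))
        exact_mod_cast (Nat.isCoprime_iff_coprime.2 h8)
      exact h7.dvd_of_dvd_mul_left ⟨_, h5⟩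
    obtain ⟨C, hC⟩ := h6
    have h7 : C = 0 := by
      by_contra hC0
      have : 1 ≤ C ^ 2 := by
        have := Int.one_le_abs hC0
        nlinarith [sq_abs C]
      rw [hC] at h4
      nlinarith [sq_nonneg A]
    rw [h7, mul_zero] at hC
    rw [hC, mul_zero] at hB
    apply hne
    have h8 : (24 * (p : ℤ)) * (b ^ 2 - v ^ 2) = 0 := by
      linear_combination (u * b + v * a) * hB - b ^ 2 * h1 + v ^ 2 * h2
    rcases mul_eq_zero.1 h8 with h9 | h9
    · exfalso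
      apply hp0
      linarith
    · linarith
  · have h3 : (p : ℤ) ∣ (u * a - 23 * v * b) ^ 2 :=
      ⟨576 * p - 23 * p * B ^ 2, by linear_combination (a ^ 2 + 23 * b ^ 2) * h1 + 24 * p * h2 -
        23 * (u * b + v * a + p * B) * hB⟩
    obtain ⟨A, hA⟩ := hpp.dvd_of_dvd_pow h3
    have h4 : A ^ 2 + 23 * B ^ 2 = 576 := by
      have h5 : (p : ℤ) ^ 2 * (A ^ 2 + 23 * B ^ 2) = p ^ 2 * 576 := by
        linear_combination (a ^ 2 + 23 * b ^ 2) * h1 + 24 * p * h2 - 23 * (u * b + v * a + p * B) * hB -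
          (u * a - 23 * v * b + p * A) * hA
      exact mul_left_cancel₀ (pow_ne_zero 2 hp0) h5
    have h5 : (p : ℤ) * B = 6 * (6 * x * t - x - t + 6 * y * s - y - s) + 2 := by
      rw [← hB, hu, hv, ha, hb]
      ring
    have hbb : 24 * b = u * B - v * A := by
      refine mul_left_cancel₀ hp0 ?_
      linear_combination (-b) * h1 + u * hB - v * hA
    have hB1 : B ≤ 5 := by nlinarith [sq_nonneg A]
    have hB2 : -5 ≤ B := by nlinarith [sq_nonneg A]
    have hA1 : A ≤ 24 := by nlinarith [sq_nonneg B]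
    have hA2 : -24 ≤ A := by nlinarith [sq_nonneg B]
    have hB3 : B % 2 = 0 := by
      rcases Int.emod_two_eq_zero_or_one B with h | h
      · exact h
      · exfalso
        obtain ⟨c, hc⟩ : ∃ c, (p : ℤ) = 2 * c + 1 := ⟨(p : ℤ) / 2, by omega⟩
        obtain ⟨d, hd⟩ : ∃ d, B = 2 * d + 1 := ⟨B / 2, by omega⟩
        rw [hc, hd] at h5
        have : (2 * c + 1) * (2 * d + 1) = 2 * (2 * c * d + c + d) + 1 := by ring
        rw [this] at h5
        omega
    have hB4 : B ≠ 0 := by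
      rintro rfl
      rw [mul_zero] at h5
      omega
    have hcase : (B = 2 ∨ B = -2) ∧ (A = 22 ∨ A = -22) := by
      have : B = 2 ∨ B = -2 ∨ B = 4 ∨ B = -4 := by omega
      rcases this with rfl | rfl | rfl | rfl
      · refine ⟨Or.inl rfl, ?_⟩
        have : (A - 22) * (A + 22) = 0 := by linear_combination h4
        rcases mul_eq_zero.1 this with h | h
        · left; linarith
        · right; linarith
      · refine ⟨Or.inr rfl, ?_⟩
        have : (A - 22) * (A + 22) = 0 := by linear_combination h4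
        rcases mul_eq_zero.1 this with h | h
        · left; linarith
        · right; linarith
      · exfalso
        have h6 : A ^ 2 = 208 := by linarith
        have h7 : A ≤ 14 := by nlinarith
        have h8 : -14 ≤ A := by nlinarith
        interval_cases A <;> omega
      · exfalso
        have h6 : A ^ 2 = 208 := by linarith
        have h7 : A ≤ 14 := by nlinarith
        have h8 : -14 ≤ A := by nlinarith
        interval_cases A <;> omega
    have hfin : u + 11 * v = 12 * b ∨ u + 11 * v = -(12 * b) := by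
      obtain ⟨hBc, hAc⟩ := hcase
      rcases hBc with rfl | rfl <;> rcases hAc with rfl | rfl
      · exfalso
        omega
      · left
        linarith
      · right
        linarith
      · exfalso
        omega
    refine ⟨?_, ?_⟩
    · rw [Int.even_iff]
      rcases hfin with h | h
      · omega
      · omega
    · rcases hfin with h | h
      · rw [h]
      · rw [h]
        ring

/-- the terms of the coefficient of `E(X) E(X²³)` -/
theorem term_ne {q : ℕ × ℕ} (h : coeff q.1 E * coeff q.2 (ex 23 E) ≠ 0) : ∃ x y : ℤ, pentagonal x = q.1 ∧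
    23 * pentagonal y = q.2 ∧ coeff q.1 E * coeff q.2 (ex 23 E) = ((Int.negOnePow (x + y) : ℤˣ) : ℤ) := by
  rw [E8X.f3_coeff_ex] at h ⊢
  by_cases hd : 23 ∣ q.2
  · rw [if_pos hd] at h ⊢
    obtain ⟨c, hc⟩ := hd
    have hc' : q.2 / 23 = c := by omega
    rw [hc'] at h ⊢
    by_cases h1 : ∃ x : ℤ, pentagonal x = q.1
    · by_cases h2 : ∃ y : ℤ, pentagonal y = c
      · obtain ⟨x, hx⟩ := h1
        obtain ⟨y, hy⟩ := h2
        refine ⟨x, y, hx, by rw [hc, hy], ?_⟩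
        rw [← hx, ← hy, T5X.E_coeff, T5X.E_coeff, Int.negOnePow_add]
        push_cast
        ring
      · rw [T5X.E_coeff_zero (n := c) (fun y hy => h2 ⟨y, hy⟩), mul_zero] at h
        exact absurd rfl h
    · rw [T5X.E_coeff_zero (n := q.1) (fun x hx => h1 ⟨x, hx⟩), zero_mul] at h
      exact absurd rfl h
  · rw [if_neg hd, mul_zero] at h
    exact absurd rfl h

theorem sol_of {k : ℕ} {q : ℕ × ℕ} {x y : ℤ} (hq : q.1 + q.2 = k) (h1 : pentagonal x = q.1)
    (h2 : 23 * pentagonal y = q.2) : (6 * x - 1) ^ 2 + 23 * (6 * y - 1) ^ 2 = 24 * ((k + 1 : ℕ) : ℤ) := by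
  rw [← T5X.pent_sq, ← T5X.pent_sq, ← hq, ← h1, ← h2]
  push_cast
  ring

theorem wilton {k : ℕ} (hp : (k + 1).Prime) (h4 : (k + 1) % 4 = 3) (h23 : k + 1 ≠ 23) (h3 : k + 1 ≠ 3)
    (hs : IsSquare (((k + 1 : ℕ)) : ZMod 23)) :
    coeff k (E * ex 23 E) = 1 ∨ coeff k (E * ex 23 E) = -1 ∨ coeff k (E * ex 23 E) = 2 := by
  classical
  have h2 : k + 1 ≠ 2 := by omega
  obtain ⟨u, v, huv, hu2, hv2, hu3, hv3⟩ := exists_uv hp h4 h23 h3 hs
  obtain ⟨x, hx⟩ := sign_six hu2 hu3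
  obtain ⟨y, hy⟩ := sign_six hv2 hv3
  have hxy : (6 * x - 1) ^ 2 + 23 * (6 * y - 1) ^ 2 = 24 * ((k + 1 : ℕ) : ℤ) := by
    rw [hx, hy]
    exact huv
  have hq0 : pentagonal x + 23 * pentagonal y = k := by
    rw [← T5X.pent_sq, ← T5X.pent_sq] at hxy
    push_cast at hxy
    omega
  rw [coeff_mul]
  obtain ⟨q0, hq0'⟩ : ∃ q : ℕ × ℕ, q = (pentagonal x, 23 * pentagonal y) := ⟨_, rfl⟩
  have hmem0 : q0 ∈ Finset.HasAntidiagonal.antidiagonal k := by
    rw [Finset.HasAntidiagonal.mem_antidiagonal, hq0']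
    exact hq0
  have hval0 : coeff q0.1 E * coeff q0.2 (ex 23 E) = ((Int.negOnePow (x + y) : ℤˣ) : ℤ) := by
    rw [hq0', E8X.f3_coeff_ex, if_pos (dvd_mul_right _ _), Nat.mul_div_cancel_left _ (by norm_num), T5X.E_coeff,
      T5X.E_coeff, Int.negOnePow_add]
    push_cast
    ring
  by_cases hB : ∃ q1 ∈ Finset.HasAntidiagonal.antidiagonal k, q1 ≠ q0 ∧ coeff q1.1 E * coeff q1.2 (ex 23 E) ≠ 0
  · right
    right
    obtain ⟨q1, hmem1, hne, hval1⟩ := hB
    obtain ⟨s, t, hs1, ht1, hst⟩ := term_ne hval1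
    have hsum1 := Finset.HasAntidiagonal.mem_antidiagonal.1 hmem1
    have hsol1 := sol_of hsum1 hs1 ht1
    have hsq : ∀ q : ℕ × ℕ, q ∈ Finset.HasAntidiagonal.antidiagonal k → ∀ q' : ℕ × ℕ, q' ∈ Finset.HasAntidiagonal.antidiagonal k →
        ∀ t t' : ℤ, 23 * pentagonal t = q.2 → 23 * pentagonal t' = q'.2 → (6 * t - 1) ^ 2 = (6 * t' - 1) ^ 2 → q = q' := by
      intro q hq q' hq' t t' ht ht' htt
      rw [← T5X.pent_sq, ← T5X.pent_sq] at htt
      rw [Finset.HasAntidiagonal.mem_antidiagonal] at hq hq'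
      have h5 : pentagonal t = pentagonal t' := by omega
      have h6 : q.2 = q'.2 := by rw [← ht, ← ht', h5]
      exact Prod.ext (by omega) h6
    have hy0 : 23 * pentagonal y = q0.2 := by rw [hq0']
    have hne1 : (6 * t - 1) ^ 2 ≠ (6 * y - 1) ^ 2 := fun h => hne (hsq q1 hmem1 q0 hmem0 t y ht1 hy0 h)
    obtain ⟨hev0, hdet1⟩ := two_sol hp h2 h3 hxy hsol1 hne1
    obtain ⟨hev1, -⟩ := two_sol hp h2 h3 hsol1 hxy (Ne.symm hne1)
    have hsub : ∀ q ∈ Finset.HasAntidiagonal.antidiagonal k, q ∉ ({q0, q1} : Finset (ℕ × ℕ)) →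
        coeff q.1 E * coeff q.2 (ex 23 E) = 0 := by
      intro q hq hnot
      by_contra h0
      obtain ⟨s2, t2, hs2, ht2, -⟩ := term_ne h0
      have hsol2 := sol_of (Finset.HasAntidiagonal.mem_antidiagonal.1 hq) hs2 ht2
      rw [Finset.mem_insert, Finset.mem_singleton, not_or] at hnot
      have hne2 : (6 * t2 - 1) ^ 2 ≠ (6 * y - 1) ^ 2 := fun h => hnot.1 (hsq q hq q0 hmem0 t2 y ht2 hy0 h)
      obtain ⟨-, hdet2⟩ := two_sol hp h2 h3 hxy hsol2 hne2
      apply hnot.2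
      refine hsq q hq q1 hmem1 t2 t ht2 ht1 ?_
      have h5 : (144 : ℤ) * (6 * t2 - 1) ^ 2 = 144 * (6 * t - 1) ^ 2 := by linear_combination hdet2 - hdet1
      exact mul_left_cancel₀ (by norm_num) h5
    rw [← Finset.sum_subset (s₁ := {q0, q1}) (by
      intro q hq
      rw [Finset.mem_insert, Finset.mem_singleton] at hq
      rcases hq with rfl | rfl
      · exact hmem0
      · exact hmem1) hsub, Finset.sum_pair (Ne.symm hne), hval0, hst, Int.negOnePow_even _ hev0,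
      Int.negOnePow_even _ hev1]
    norm_num
  · push Not at hB
    rw [Finset.sum_eq_single q0 (fun q hq hne => hB q hq hne) (fun h => absurd hmem0 h), hval0]
    rcases Int.units_eq_one_or (Int.negOnePow (x + y)) with h | h
    · left
      rw [h]
      rfl
    · right
      left
      rw [h]
      rfl

/-- a prime `p` with `τ(p) = 0` is not a square modulo `23` -/
theorem not_square23 {p : ℕ} (hp : p.Prime) (h : E8X.tau p = 0) : ¬ IsSquare ((p : ℕ) : ZMod 23) := by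
  intro hs
  obtain ⟨z, hz, -⟩ := E8X.prime_cond hp h
  obtain ⟨k, rfl⟩ : ∃ k, p = k + 1 := ⟨p - 1, by have := hp.pos; omega⟩
  have h1 : (23 : ℤ) ∣ coeff k (E * ex 23 E) := by
    obtain ⟨V, hV, hD⟩ := exists_V (l := 23) (by norm_num)
    have h2 : Dl = X * (E * ex 23 E) + C 23 * (X * E * ex 23 E * V) := by
      rw [T5X.Dl_eq, show (24 : ℕ) = 23 + 1 from rfl, pow_succ, hV]
      push_cast
      ring
    have h3 := congrArg (coeff (k + 1)) h2
    rw [map_add, coeff_succ_X_mul, coeff_C_mul] at h3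
    have h4 : coeff (k + 1) Dl = 0 := h
    rw [h4] at h3
    exact ⟨- coeff (k + 1) (X * E * ex 23 E * V), by linear_combination -h3⟩
  have h5 := wilton hp (by omega) (by omega) (by omega) hs
  rcases h5 with h5 | h5 | h5 <;> rw [h5] at h1 <;> norm_num at h1

theorem prime_cond23 {p : ℕ} (hp : p.Prime) (h : E8X.tau p = 0) : ¬ IsSquare ((p : ℕ) : ZMod 23) ∧
    (23 : ℤ) ∣ ∑ k ∈ Finset.range p, E8X.tau k * (((p - k : ℕ) : ℤ) ^ 21 * (ArithmeticFunction.sigma 1 (p - k) : ℤ)) :=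
  ⟨not_square23 hp h, prime_cond23' h (not_square23 hp h)⟩

end T7X
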