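import Pool.Agent.T5X.A4

/-!
# [T7X-F0] `f^l = f(X^l)` modulo a prime `l`
-/

set_option autoImplicit false

open PowerSeries
open N19 (ex)
open NC11 (D)
open E8X (Sg Dl F3Cl J)

namespace T7X

theorem frob_zmod {l : ℕ} [hl : Fact l.Prime] (f : PowerSeries (ZMod l)) :
    f ^ l = PowerSeries.expand l hl.out.ne_zero f := by
  ext n
  have h1 : coeff n (f ^ l) = (((trunc (n + 1) f) ^ l : Polynomial (ZMod l)) : PowerSeries (ZMod l)).coeff n := by
    have h := congrArg (fun P : Polynomial (ZMod l) => P.coeff n) (trunc_trunc_pow f (n + 1) l)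
    simp only [coeff_trunc, Nat.lt_succ_self, if_true] at h
    rw [Polynomial.coe_pow]
    exact h.symm
  rw [h1, ← ZMod.expand_card, Polynomial.coeff_coe, Polynomial.coeff_expand hl.out.pos,
    PowerSeries.coeff_expand]
  by_cases hd : l ∣ n
  · rw [if_pos hd, if_pos hd, coeff_trunc, if_pos]
    have := Nat.div_le_self n l
    omega
  · rw [if_neg hd, if_neg hd]

theorem frob {l : ℕ} (hl : l.Prime) (f : PowerSeries ℤ) : ∃ W : PowerSeries ℤ, f ^ l = ex l f + C (l : ℤ) * W := by
  have := Fact.mk hl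
  have h : ∀ n, (l : ℤ) ∣ coeff n (f ^ l) - coeff n (ex l f) := by
    intro n
    rw [← ZMod.intCast_zmod_eq_zero_iff_dvd, Int.cast_sub, sub_eq_zero]
    have h1 := congrArg (coeff n) (frob_zmod (l := l) (PowerSeries.map (Int.castRingHom (ZMod l)) f))
    rw [← map_pow, coeff_map, PowerSeries.coeff_expand] at h1
    rw [E8X.f3_coeff_ex]
    simp only [coeff_map] at h1
    rw [show ((coeff n (f ^ l) : ℤ) : ZMod l) = Int.castRingHom (ZMod l) (coeff n (f ^ l)) from rfl, h1]
    split_ifs
    · rfl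
    · simp
  choose w hw using h
  refine ⟨mk w, ?_⟩
  ext n
  rw [map_add, coeff_C_mul, coeff_mk, ← hw n]
  ring

end T7X
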