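import Pool.Agent.T7X.F0

/-!
# [T7X-F1] `E^l = E(X^l) (1 + l V)` and the differential equation of `V`
-/

set_option autoImplicit false

open PowerSeries
open N19 (ex)
open NC11 (D)
open E8X (Sg Dl F3Cl J)
open T5X (E E_zero iv iv_mul D_E)

namespace T7X

theorem ex_zero' {k : ℕ} {f : PowerSeries ℤ} (h : constantCoeff f = 1) : constantCoeff (ex k f) = 1 := by
  rw [← coeff_zero_eq_constantCoeff_apply, E8X.f3_coeff_ex, if_pos (dvd_zero _), Nat.zero_div,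
    coeff_zero_eq_constantCoeff_apply, h]

theorem ne_zero' {f : PowerSeries ℤ} (h : constantCoeff f = 1) : f ≠ 0 := by
  rintro rfl
  rw [map_zero] at h
  norm_num at h

theorem C_ne {c : ℤ} (hc : c ≠ 0) : (C c : PowerSeries ℤ) ≠ 0 := by
  intro h
  apply hc
  have := congrArg (constantCoeff (R := ℤ)) h
  rwa [constantCoeff_C, map_zero] at this

theorem D_Cmul (c : ℤ) (f : PowerSeries ℤ) : D (C c * f) = C c * D f := by
  ext n
  simp only [D, coeff_mk, coeff_C_mul]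
  ring

theorem D_neg' (f : PowerSeries ℤ) : D (-f) = - D f := by
  ext n
  simp only [D, coeff_mk, map_neg, mul_neg]

theorem D_add' (f g : PowerSeries ℤ) : D (f + g) = D f + D g := by
  ext n
  simp only [D, coeff_mk, map_add, mul_add]

theorem D_sub' (f g : PowerSeries ℤ) : D (f - g) = D f - D g := by
  ext n
  simp only [D, coeff_mk, map_sub, mul_sub]

theorem ex_neg' (k : ℕ) (f : PowerSeries ℤ) : ex k (-f) = - ex k f := by
  ext n
  rw [map_neg, E8X.f3_coeff_ex, E8X.f3_coeff_ex]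
  split_ifs
  · rw [map_neg]
  · rw [neg_zero]

theorem D_ex' {k : ℕ} (hk : 0 < k) (f : PowerSeries ℤ) : D (ex k f) = C (k : ℤ) * ex k (D f) := by
  ext n
  rw [coeff_C_mul, D, coeff_mk, E8X.f3_coeff_ex, E8X.f3_coeff_ex]
  by_cases h : k ∣ n
  · obtain ⟨m, rfl⟩ := h
    rw [if_pos (dvd_mul_right _ _), if_pos (dvd_mul_right _ _), Nat.mul_div_cancel_left m hk, D, coeff_mk]
    push_cast
    ring
  · rw [if_neg h, if_neg h]
    ring

theorem D_Ex {k : ℕ} (hk : 0 < k) : D (ex k E) = - (C (k : ℤ) * ex k (Sg 1)) * ex k E := by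
  rw [D_ex' hk, D_E, E8X.ex_mul hk, ex_neg']
  ring

/-- `V` with `E^l = E(X^l) (1 + l V)` -/
theorem exists_V {l : ℕ} (hl : l.Prime) : ∃ V : PowerSeries ℤ, E ^ l = ex l E * (1 + C (l : ℤ) * V) ∧
    D V = - (Sg 1 - ex l (Sg 1)) * (1 + C (l : ℤ) * V) := by
  obtain ⟨W, hW⟩ := frob hl E
  have hu := iv_mul (ex_zero' (k := l) E_zero)
  obtain ⟨k, rfl⟩ : ∃ k, l = k + 1 := ⟨l - 1, by have := hl.pos; omega⟩
  have h1 : E ^ (k + 1) = ex (k + 1) E * (1 + C ((k + 1 : ℕ) : ℤ) * (W * iv (ex (k + 1) E))) := by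
    rw [hW]
    linear_combination (-(C ((k + 1 : ℕ) : ℤ) * W)) * hu
  refine ⟨W * iv (ex (k + 1) E), h1, ?_⟩
  generalize W * iv (ex (k + 1) E) = V at h1
  have h2 := congrArg D h1
  have hD1 : D (1 : PowerSeries ℤ) = 0 := T5X.Dg_one
  rw [T5X.Dg_pow, D_E, E8T.D_mul, D_Ex (Nat.succ_pos k), D_add', hD1, D_Cmul] at h2
  have hc : (C ((k + 1 : ℕ) : ℤ) : PowerSeries ℤ) = (k : PowerSeries ℤ) + 1 := by
    simp
  have hne : (C ((k + 1 : ℕ) : ℤ) : PowerSeries ℤ) ≠ 0 := C_ne (by exact_mod_cast hl.ne_zero)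
  have hne2 : ex (k + 1) E ≠ 0 := ne_zero' (ex_zero' E_zero)
  refine mul_left_cancel₀ (mul_ne_zero hne hne2) ?_
  rw [← hc] at h2
  have h3 : C ((k + 1 : ℕ) : ℤ) * E ^ k * (- Sg 1 * E) = C ((k + 1 : ℕ) : ℤ) * (- Sg 1) * E ^ (k + 1) := by
    rw [pow_succ]
    ring
  rw [h3] at h2
  linear_combination (-1 : PowerSeries ℤ) * h2 + (C ((k + 1 : ℕ) : ℤ) * (- Sg 1)) * h1

end T7X
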