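import Pool.Agent.T7X.F1

/-!
# [T7X-F2] `τ` modulo `529`
-/

set_option autoImplicit false

open PowerSeries
open N19 (ex)
open NC11 (D)
open E8X (Sg Dl F3Cl J)
open T5X (E E_zero iv iv_mul D_E)

namespace T7X

theorem Sstar {l m : ℕ} (hm : ¬ l ∣ m) : coeff m (Sg 1 - ex l (Sg 1)) = (ArithmeticFunction.sigma 1 m : ℤ) := by
  rw [map_sub, E8X.f3_coeff_ex, if_neg hm, Sg, coeff_mk, sub_zero]

theorem fermat {l m : ℕ} (hl : l.Prime) (hm : ¬ l ∣ m) : (l : ℤ) ∣ (m : ℤ) ^ (l - 1) - 1 := by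
  have h : IsCoprime (m : ℤ) (l : ℤ) := by
    rw [Nat.isCoprime_iff_coprime]
    exact ((Nat.Prime.coprime_iff_not_dvd hl).2 hm).symm
  exact (Int.ModEq.pow_card_sub_one_eq_one hl h).symm.dvd

theorem V_mod {l : ℕ} (hl : l.Prime) {V : PowerSeries ℤ}
    (hD : D V = - (Sg 1 - ex l (Sg 1)) * (1 + C (l : ℤ) * V)) {m : ℕ} (hm : ¬ l ∣ m) :
    (l : ℤ) ∣ coeff m V + (m : ℤ) ^ (l - 2) * (ArithmeticFunction.sigma 1 m : ℤ) := by
  have h1 := congrArg (coeff m) hD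
  have e : - (Sg 1 - ex l (Sg 1)) * (1 + C (l : ℤ) * V) =
      - (Sg 1 - ex l (Sg 1)) - C (l : ℤ) * ((Sg 1 - ex l (Sg 1)) * V) := by ring
  rw [e, map_sub, map_neg, Sstar hm, coeff_C_mul, D, coeff_mk] at h1
  obtain ⟨k, hk⟩ := fermat hl hm
  have hl2 : l - 1 = (l - 2) + 1 := by have := hl.two_le; omega
  rw [hl2, pow_succ] at hk
  refine ⟨- (m : ℤ) ^ (l - 2) * coeff m ((Sg 1 - ex l (Sg 1)) * V) - k * coeff m V, ?_⟩
  linear_combination (m : ℤ) ^ (l - 2) * h1 - coeff m V * hk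

/-- a number is a square modulo `23`, for exponents of `X E(X) E(X²³)` -/
theorem F23_zero {n : ℕ} (hn : ¬ IsSquare ((n : ℕ) : ZMod 23)) : coeff n (X * E * ex 23 E) = 0 := by
  rcases Nat.eq_zero_or_pos n with rfl | hpos
  · exact absurd ⟨0, by simp⟩ hn
  obtain ⟨k, rfl⟩ : ∃ k, n = k + 1 := ⟨n - 1, by omega⟩
  rw [mul_assoc, coeff_succ_X_mul, coeff_mul]
  refine Finset.sum_eq_zero fun p hp => ?_
  rw [Finset.HasAntidiagonal.mem_antidiagonal] at hp
  rw [E8X.f3_coeff_ex]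
  split_ifs with hd
  · by_cases h : ∃ j : ℤ, pentagonal j = p.1
    · exfalso
      obtain ⟨j, hj⟩ := h
      obtain ⟨c, hc⟩ := hd
      apply hn
      have h1 := T5X.pent_sq j
      rw [hj] at h1
      refine ⟨((6 * j - 1 : ℤ) : ZMod 23), ?_⟩
      rw [← Int.cast_mul, ← pow_two, ← h1, ← hp, hc]
      push_cast
      have h23 : (23 : ZMod 23) = 0 := by decide
      have h24 : (24 : ZMod 23) = 1 := by decide
      rw [h23, h24]
      ring
    · rw [T5X.E_coeff_zero (fun j hj => h ⟨j, hj⟩), zero_mul]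
  · rw [mul_zero]

/-- for `n` not a square modulo `23`, `τ(n)` is `-23 ∑ τ(k) (n-k)^21 σ(n-k)` modulo `529` -/
theorem tau_23 {n : ℕ} (hn : ¬ IsSquare ((n : ℕ) : ZMod 23)) : (529 : ℤ) ∣ E8X.tau n +
    23 * ∑ k ∈ Finset.range n, E8X.tau k * (((n - k : ℕ) : ℤ) ^ 21 * (ArithmeticFunction.sigma 1 (n - k) : ℤ)) := by
  obtain ⟨V, hV, hD⟩ := exists_V (l := 23) (by norm_num)
  have h1 : Dl = X * E * ex 23 E + C 23 * (X * E * ex 23 E * V) := by
    rw [T5X.Dl_eq, show (24 : ℕ) = 23 + 1 from rfl, pow_succ, hV]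
    push_cast
    ring
  have hT : ∀ k : ℕ, (23 : ℤ) ∣ E8X.tau k - coeff k (X * E * ex 23 E) := by
    intro k
    refine ⟨coeff k (X * E * ex 23 E * V), ?_⟩
    rw [E8X.tau, ← coeff_C_mul, ← map_sub]
    congr 1
    linear_combination h1
  have h2 : E8X.tau n = 23 * coeff n (X * E * ex 23 E * V) := by
    have h3 := congrArg (coeff n) h1
    rw [map_add, F23_zero hn, zero_add, coeff_C_mul] at h3
    exact h3
  have h3 : (23 : ℤ) ∣ coeff n (X * E * ex 23 E * V) +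
      ∑ k ∈ Finset.range n, E8X.tau k * (((n - k : ℕ) : ℤ) ^ 21 * (ArithmeticFunction.sigma 1 (n - k) : ℤ)) := by
    rw [coeff_mul, Finset.Nat.sum_antidiagonal_eq_sum_range_succ (fun i j => coeff i (X * E * ex 23 E) * coeff j V) n,
      Finset.sum_range_succ, F23_zero hn, zero_mul, add_zero, ← Finset.sum_add_distrib]
    refine Finset.dvd_sum fun k hk => ?_
    have hk' := Finset.mem_range.1 hk
    by_cases hd : 23 ∣ n - k
    · have h4 : ¬ IsSquare ((k : ℕ) : ZMod 23) := by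
        obtain ⟨c, hc⟩ := hd
        have h5 : n = k + 23 * c := by omega
        rw [h5] at hn
        push_cast at hn
        have h23 : (23 : ZMod 23) = 0 := by decide
        rwa [h23, zero_mul, add_zero] at hn
      rw [F23_zero h4, zero_mul, zero_add]
      refine Dvd.dvd.mul_left ?_ _
      refine Dvd.dvd.mul_right ?_ _
      have h5 : (23 : ℤ) ∣ ((n - k : ℕ) : ℤ) := by exact_mod_cast hd
      exact dvd_pow h5 (by norm_num)
    · obtain ⟨a, ha⟩ := hT k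
      obtain ⟨c, hc⟩ := V_mod (l := 23) (by norm_num) hD hd
      have hc' : coeff (n - k) V + ((n - k : ℕ) : ℤ) ^ 21 * (ArithmeticFunction.sigma 1 (n - k) : ℤ) = 23 * c := hc
      refine ⟨a * (((n - k : ℕ) : ℤ) ^ 21 * (ArithmeticFunction.sigma 1 (n - k) : ℤ)) +
        coeff k (X * E * ex 23 E) * c, ?_⟩
      linear_combination (((n - k : ℕ) : ℤ) ^ 21 * (ArithmeticFunction.sigma 1 (n - k) : ℤ)) * ha +
        coeff k (X * E * ex 23 E) * hc'
  obtain ⟨c, hc⟩ := h3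
  refine ⟨c, ?_⟩
  rw [h2]
  linear_combination 23 * hc

theorem prime_cond23' {p : ℕ} (h : E8X.tau p = 0) (h23 : ¬ IsSquare ((p : ℕ) : ZMod 23)) :
    (23 : ℤ) ∣ ∑ k ∈ Finset.range p, E8X.tau k * (((p - k : ℕ) : ℤ) ^ 21 * (ArithmeticFunction.sigma 1 (p - k) : ℤ)) := by
  have h1 := tau_23 h23
  rw [h, zero_add, show (529 : ℤ) = 23 * 23 by norm_num] at h1
  exact (mul_dvd_mul_iff_left (by norm_num : (23 : ℤ) ≠ 0)).1 h1

end T7X
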