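import Pool.Agent.T7X.F1

/-!
# [T7X-F3] `E^7 = E(X^7) (1 - 7 ∑ σ₅(n) X^n)` modulo `49`
-/

set_option autoImplicit false

open PowerSeries
open N19 (ex)
open NC11 (D)
open E8X (Sg Dl F3Cl J)
open T5X (E E_zero iv iv_mul D_E)

namespace T7X

/-- `∑ n^5 X^n` -/
noncomputable def g5 : PowerSeries ℤ := mk fun n => (n : ℤ) ^ 5

theorem g5_mul : ∃ w : PowerSeries ℤ, (1 - X ^ 7) * g5 = X - C 3 * X ^ 2 + C 5 * X ^ 3 - C 5 * X ^ 4 + C 3 * X ^ 5 - X ^ 6 + C 7 * w := by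
  have h : ∀ n, (7 : ℤ) ∣ coeff n ((1 - X ^ 7) * g5) -
      coeff n (X - C 3 * X ^ 2 + C 5 * X ^ 3 - C 5 * X ^ 4 + C 3 * X ^ 5 - X ^ 6 : PowerSeries ℤ) := by
    intro n
    rw [sub_mul, one_mul, map_sub, coeff_X_pow_mul']
    simp only [map_sub, map_add, coeff_C_mul, coeff_X_pow, coeff_X, g5, coeff_mk]
    by_cases h7 : 7 ≤ n
    · rw [if_pos h7, if_neg (by omega), if_neg (by omega), if_neg (by omega), if_neg (by omega), if_neg (by omega),
        if_neg (by omega)]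
      have h1 : (n : ℤ) - ((n - 7 : ℕ) : ℤ) = 7 := by omega
      have h2 := sub_dvd_pow_sub_pow (n : ℤ) ((n - 7 : ℕ) : ℤ) 5
      rw [h1] at h2
      simpa using h2
    · rw [if_neg h7]
      have h8 : n < 7 := by omega
      interval_cases n <;> norm_num
  choose w hw using h
  refine ⟨mk w, ?_⟩
  ext n
  rw [map_add, coeff_C_mul, coeff_mk, ← hw n]
  ring

theorem one_sub_pow : ∃ w : PowerSeries ℤ, (1 - X : PowerSeries ℤ) ^ 7 = (1 - X ^ 7) * (1 - C 7 * g5) + C 49 * w := by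
  obtain ⟨w, hw⟩ := g5_mul
  refine ⟨w, ?_⟩
  have h3 : (C 3 : PowerSeries ℤ) = 3 := rfl
  have h5 : (C 5 : PowerSeries ℤ) = 5 := rfl
  have h7 : (C 7 : PowerSeries ℤ) = 7 := rfl
  have h49 : (C 49 : PowerSeries ℤ) = 49 := rfl
  rw [h3, h5, h7] at hw
  rw [h7, h49]
  linear_combination (7 : PowerSeries ℤ) * hw

theorem one_sub_pow' (a : ℕ) : ∃ w : PowerSeries ℤ, (1 - X ^ (a + 1) : PowerSeries ℤ) ^ 7 =
    ex 7 (1 - X ^ (a + 1)) * (1 - C 7 * ex (a + 1) g5) + C 49 * w := by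
  obtain ⟨w, hw⟩ := one_sub_pow
  refine ⟨ex (a + 1) w, ?_⟩
  have ha : 0 < a + 1 := Nat.succ_pos a
  have h := congrArg (ex (a + 1)) hw
  have h1 : ex (a + 1) (1 : PowerSeries ℤ) = 1 := by
    have := E8X.ex_ofNat ha 1
    rwa [map_one] at this
  have h17 : ex 7 (1 : PowerSeries ℤ) = 1 := by
    have := E8X.ex_ofNat (k := 7) (by norm_num) 1
    rwa [map_one] at this
  have hs : ∀ f g : PowerSeries ℤ, ∀ k, ex k (f - g) = ex k f - ex k g := by
    intro f g k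
    rw [sub_eq_add_neg, E8X.ex_add, ex_neg', ← sub_eq_add_neg]
  rw [E8X.ex_pow ha, hs, h1, E8X.ex_X ha, E8X.ex_add, E8X.ex_mul ha, E8X.ex_mul ha, hs, hs, h1, E8X.ex_mul ha,
    E8X.ex_ofNat ha, E8X.ex_ofNat ha, E8X.ex_pow ha, E8X.ex_X ha] at h
  rw [h, hs, h17, E8X.ex_pow (by norm_num), E8X.ex_X (by norm_num), ← pow_mul, ← pow_mul, mul_comm (a + 1) 7]

theorem prod7 (S : Finset ℕ) : ∃ w : PowerSeries ℤ, (∏ k ∈ S, (1 - X ^ (k + 1)) : PowerSeries ℤ) ^ 7 =
    ex 7 (∏ k ∈ S, (1 - X ^ (k + 1))) * (1 - C 7 * ∑ k ∈ S, ex (k + 1) g5) + C 49 * w := by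
  classical
  induction S using Finset.induction_on with
  | empty =>
    refine ⟨0, ?_⟩
    have h17 : ex 7 (1 : PowerSeries ℤ) = 1 := by
      have := E8X.ex_ofNat (k := 7) (by norm_num) 1
      rwa [map_one] at this
    simp [h17]
  | insert a S ha ih =>
    obtain ⟨w, hw⟩ := ih
    obtain ⟨v, hv⟩ := one_sub_pow' a
    rw [Finset.prod_insert ha, Finset.sum_insert ha, E8X.ex_mul (by norm_num), mul_pow, hv, hw]
    generalize ex 7 (1 - X ^ (a + 1)) = u
    generalize ex 7 (∏ k ∈ S, (1 - X ^ (k + 1))) = u'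
    generalize ex (a + 1) g5 = g
    generalize (∑ k ∈ S, ex (k + 1) g5) = g'
    have h7 : (C 7 : PowerSeries ℤ) = 7 := rfl
    have h49 : (C 49 : PowerSeries ℤ) = 49 := rfl
    refine ⟨u * u' * g * g' + u * (1 - 7 * g) * w + v * (u' * (1 - 7 * g')) + 49 * v * w, ?_⟩
    rw [h7, h49]
    ring

theorem sum_g5 {S : Finset ℕ} {i : ℕ} (hS : Finset.range (i + 1) ⊆ S) :
    coeff i (∑ k ∈ S, ex (k + 1) g5) = coeff i (Sg 5) := by
  rw [map_sum, Sg, coeff_mk]
  simp only [E8X.f3_coeff_ex, g5, coeff_mk]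
  rcases Nat.eq_zero_or_pos i with rfl | hi
  · simp
  · have hi0 : i ≠ 0 := hi.ne'
    rw [← Finset.sum_filter, ArithmeticFunction.sigma_apply, Nat.cast_sum]
    simp only [Nat.cast_pow]
    symm
    refine Finset.sum_bij (fun d _ => i / d - 1) ?_ ?_ ?_ ?_
    · intro d hd
      have hd' := Nat.mem_divisors.1 hd
      obtain ⟨c, hc⟩ := hd'.1
      have hd0 : 0 < d := Nat.pos_of_dvd_of_pos hd'.1 hi
      have hc0 : 0 < c := by
        rcases Nat.eq_zero_or_pos c with h | h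
        · subst h
          omega
        · exact h
      have h1 : i / d = c := by
        rw [hc, Nat.mul_div_cancel_left c hd0]
      have h2 : c ≤ i := Nat.le_of_dvd hi ⟨d, by rw [hc]; ring⟩
      rw [Finset.mem_filter, h1]
      refine ⟨hS (Finset.mem_range.2 (by omega)), ?_⟩
      rw [Nat.sub_add_cancel hc0]
      exact ⟨d, by rw [hc]; ring⟩
    · intro a ha b hb hab
      have ha' := Nat.mem_divisors.1 ha
      have hb' := Nat.mem_divisors.1 hb
      have h1 : 0 < i / a := Nat.div_pos (Nat.le_of_dvd hi ha'.1) (Nat.pos_of_dvd_of_pos ha'.1 hi)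
      have h2 : 0 < i / b := Nat.div_pos (Nat.le_of_dvd hi hb'.1) (Nat.pos_of_dvd_of_pos hb'.1 hi)
      have h3 : i / a = i / b := by
        have h4 : i / a - 1 = i / b - 1 := hab
        omega
      have h4 := Nat.div_mul_cancel ha'.1
      have h5 := Nat.div_mul_cancel hb'.1
      rw [← h3] at h5
      exact Nat.eq_of_mul_eq_mul_left h1 (h4.trans h5.symm)
    · intro b hb
      rw [Finset.mem_filter] at hb
      obtain ⟨c, hc⟩ := hb.2
      refine ⟨c, Nat.mem_divisors.2 ⟨⟨b + 1, by rw [hc]; ring⟩, hi0⟩, ?_⟩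
      have hc0 : 0 < c := by
        rcases Nat.eq_zero_or_pos c with h | h
        · subst h
          omega
        · exact h
      have h1 : i / c = b + 1 := by
        rw [hc, Nat.mul_div_cancel _ hc0]
      rw [h1]
      rfl
    · intro d hd
      have hd' := Nat.mem_divisors.1 hd
      have h1 : 0 < i / d := Nat.div_pos (Nat.le_of_dvd hi hd'.1) (Nat.pos_of_dvd_of_pos hd'.1 hi)
      rw [Nat.sub_add_cancel h1, Nat.div_div_self hd'.1 hi0]

theorem E7_mod : ∃ w : PowerSeries ℤ, E ^ 7 = ex 7 E * (1 - C 7 * Sg 5) + C 49 * w := by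
  have h : ∀ n, (49 : ℤ) ∣ coeff n (E ^ 7 - ex 7 E * (1 - C 7 * Sg 5)) := by
    intro n
    have hev : ∀ᶠ S : Finset ℕ in Filter.atTop, (∀ j ∈ Finset.range (n + 1),
        (∏ k ∈ S, (1 - X ^ (k + 1) : PowerSeries ℤ)).coeff j = E.coeff j) ∧
        Finset.range (n + 1) ⊆ S := by
      refine Filter.Eventually.and ?_ (Filter.eventually_ge_atTop _)
      rw [Filter.eventually_all_finset]
      intro j _
      exact coeff_prod_one_sub_X_pow_eventually_eq ℤ j
    obtain ⟨S, hS1, hS2⟩ := hev.exists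
    obtain ⟨w, hw⟩ := prod7 S
    generalize (∏ k ∈ S, (1 - X ^ (k + 1)) : PowerSeries ℤ) = A at hS1 hw
    have hG : ∀ i, i < n + 1 → coeff i (Sg 5 - ∑ k ∈ S, ex (k + 1) g5) = 0 := by
      intro i hi
      rw [map_sub, sum_g5 (Finset.Subset.trans (Finset.range_mono (by omega)) hS2), sub_self]
    generalize (∑ k ∈ S, ex (k + 1) g5) = G at hw hG
    obtain ⟨e, he⟩ : (X : PowerSeries ℤ) ^ (n + 1) ∣ E - A := by
      rw [X_pow_dvd_iff]
      intro m hm
      rw [map_sub, hS1 m (Finset.mem_range.2 hm), sub_self]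
    obtain ⟨e', he'⟩ : (X : PowerSeries ℤ) ^ (n + 1) ∣ ex 7 E - ex 7 A := by
      rw [X_pow_dvd_iff]
      intro m hm
      rw [map_sub, E8X.f3_coeff_ex, E8X.f3_coeff_ex]
      split_ifs
      · have : m / 7 ≤ m := Nat.div_le_self m 7
        rw [hS1 (m / 7) (Finset.mem_range.2 (by omega)), sub_self]
      · ring
    obtain ⟨e'', he''⟩ : (X : PowerSeries ℤ) ^ (n + 1) ∣ Sg 5 - G := X_pow_dvd_iff.2 hG
    obtain ⟨t, ht⟩ := sub_dvd_pow_sub_pow E A 7
    have key : E ^ 7 - ex 7 E * (1 - C 7 * Sg 5) = C 49 * w +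
        X ^ (n + 1) * (e * t - e' * (1 - C 7 * Sg 5) + C 7 * ex 7 A * e'') := by
      linear_combination hw + ht + t * he - (1 - C 7 * Sg 5) * he' + C 7 * ex 7 A * he''
    rw [key, map_add, coeff_C_mul, coeff_X_pow_mul', if_neg (by omega), add_zero]
    exact Dvd.intro _ rfl
  choose w hw using h
  refine ⟨mk w, ?_⟩
  have : E ^ 7 - ex 7 E * (1 - C 7 * Sg 5) = C 49 * mk w := by
    ext n
    rw [hw n, coeff_C_mul, coeff_mk]
  linear_combination this

/-- `V = - ∑ σ₅(n) X^n` modulo `7` -/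
theorem V7_mod {V : PowerSeries ℤ} (hV : E ^ 7 = ex 7 E * (1 + C 7 * V)) : ∃ u : PowerSeries ℤ, V = - Sg 5 + C 7 * u := by
  obtain ⟨w, hw⟩ := E7_mod
  have hu := iv_mul (ex_zero' (k := 7) E_zero)
  refine ⟨w * iv (ex 7 E), ?_⟩
  have h7 : (C 7 : PowerSeries ℤ) ≠ 0 := C_ne (by norm_num)
  have h49 : (C 49 : PowerSeries ℤ) = C 7 * C 7 := by
    rw [← map_mul]
    norm_num
  refine mul_left_cancel₀ (mul_ne_zero h7 (ne_zero' (ex_zero' (k := 7) E_zero))) ?_
  rw [h49] at hw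
  linear_combination hw - hV + (- (C 7 * C 7 * w)) * hu

end T7X
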