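import Pool.Agent.T7X.F2
import Pool.Agent.T7X.F3

/-!
# [T7X-F4] `τ` modulo `343`, in terms of `b = X E³ E(X⁷)³`
-/

set_option autoImplicit false

open PowerSeries
open N19 (ex)
open NC11 (D)
open E8X (Sg Dl F3Cl J)
open T5X (E E_zero iv iv_mul D_E)

namespace T7X

/-- `b = X E(X)³ E(X⁷)³` -/
noncomputable def bb : PowerSeries ℤ := X * (E ^ 3 * ex 7 (E ^ 3))

/-- `3 m^41 σ(m) - 7 ∑_{i + j = m} σ₅(i) σ₅(j)` -/
def g7 (m : ℕ) : ℤ := 3 * ((m : ℤ) ^ 41 * (ArithmeticFunction.sigma 1 m : ℤ)) -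
  7 * ∑ i ∈ Finset.range m, (ArithmeticFunction.sigma 5 i : ℤ) * (ArithmeticFunction.sigma 5 (m - i) : ℤ)

/-- generating function of `g7` -/
noncomputable def Gg : PowerSeries ℤ := mk g7

theorem bb_zero {n : ℕ} (hn : ¬ IsSquare ((n : ℕ) : ZMod 7)) : coeff n bb = 0 := by
  rcases Nat.eq_zero_or_pos n with rfl | hpos
  · exact absurd ⟨0, by simp⟩ hn
  obtain ⟨k, rfl⟩ : ∃ k, n = k + 1 := ⟨n - 1, by omega⟩
  rw [bb, coeff_succ_X_mul, coeff_mul]
  refine Finset.sum_eq_zero fun p hp => ?_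
  rw [Finset.HasAntidiagonal.mem_antidiagonal] at hp
  rw [E8X.f3_coeff_ex]
  split_ifs with hd
  · rw [T5X.coeff_E3 p.1]
    by_cases h : ∃ j : ℕ, (2 * j + 1) ^ 2 = 8 * p.1 + 1
    · exfalso
      obtain ⟨j, hj⟩ := h
      obtain ⟨c, hc⟩ := hd
      apply hn
      refine ⟨((2 * j + 1 : ℕ) : ZMod 7), ?_⟩
      rw [← Nat.cast_mul, ← pow_two, hj, ← hp, hc]
      push_cast
      have h7 : (7 : ZMod 7) = 0 := by decide
      have h8 : (8 : ZMod 7) = 1 := by decide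
      rw [h7, h8]
      ring
    · rw [E8X.m3_coeff_zero (fun j hj => h ⟨j, hj⟩), zero_mul]
  · rw [mul_zero]

theorem sq7_sub {n m : ℕ} (hn : ¬ IsSquare ((n : ℕ) : ZMod 7)) (hm : m ≤ n) (hd : 7 ∣ n - m) :
    ¬ IsSquare ((m : ℕ) : ZMod 7) := by
  obtain ⟨c, hc⟩ := hd
  have h5 : n = m + 7 * c := by omega
  rw [h5] at hn
  push_cast at hn
  have h23 : (7 : ZMod 7) = 0 := by decide
  rwa [h23, zero_mul, add_zero] at hn

theorem euler49 {m : ℕ} (hm : ¬ 7 ∣ m) : (49 : ℤ) ∣ (m : ℤ) ^ 42 - 1 := by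
  have h1 : Nat.Coprime m 49 := by
    have h2 : Nat.Coprime m 7 := ((Nat.Prime.coprime_iff_not_dvd (by norm_num)).2 hm).symm
    rw [show (49 : ℕ) = 7 ^ 2 by norm_num]
    exact Nat.Coprime.pow_right 2 h2
  have h3 := Nat.ModEq.pow_totient h1
  have h4 : Nat.totient 49 = 42 := by decide
  rw [h4] at h3
  have h5 := (Nat.modEq_iff_dvd.1 h3.symm)
  push_cast at h5
  exact h5

/-- coefficients of `2 V - 7 V²` modulo `49` -/
theorem Z_mod {V : PowerSeries ℤ} (hD : D V = - (Sg 1 - ex 7 (Sg 1)) * (1 + C 7 * V)) {m : ℕ} (hm : ¬ 7 ∣ m) :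
    (49 : ℤ) ∣ coeff m (C 2 * V - C 7 * V ^ 2) + 2 * ((m : ℤ) ^ 41 * (ArithmeticFunction.sigma 1 m : ℤ)) := by
  have h1 : D (C 2 * V - C 7 * V ^ 2) = C (-2) * (Sg 1 - ex 7 (Sg 1)) +
      C 49 * (C 2 * V ^ 2 * (Sg 1 - ex 7 (Sg 1))) := by
    have h2 : D (V ^ 2) = 2 * V * D V := by
      rw [pow_two, E8T.D_mul]
      ring
    rw [D_sub', D_Cmul, D_Cmul, h2, hD]
    simp only [map_neg, show (C 2 : PowerSeries ℤ) = 2 from rfl, show (C 7 : PowerSeries ℤ) = 7 from rfl,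
      show (C 49 : PowerSeries ℤ) = 49 from rfl]
    ring
  have h3 := congrArg (coeff m) h1
  rw [map_add, coeff_C_mul, coeff_C_mul, Sstar hm, D, coeff_mk] at h3
  obtain ⟨k, hk⟩ := euler49 hm
  generalize coeff m (C 2 * V - C 7 * V ^ 2) = z at h3 ⊢
  generalize coeff m (C 2 * V ^ 2 * (Sg 1 - ex 7 (Sg 1))) = u at h3
  refine ⟨(m : ℤ) ^ 41 * u - k * z, ?_⟩
  linear_combination (m : ℤ) ^ 41 * h3 - z * hk

theorem coeff_Gg (m : ℕ) : coeff m Gg = 3 * ((m : ℤ) ^ 41 * (ArithmeticFunction.sigma 1 m : ℤ)) -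
    7 * coeff m (Sg 5 ^ 2) := by
  rw [Gg, coeff_mk, g7, pow_two, coeff_mul,
    Finset.Nat.sum_antidiagonal_eq_sum_range_succ (fun i j => coeff i (Sg 5) * coeff j (Sg 5)) m,
    Finset.sum_range_succ]
  simp [Sg]

theorem tau_bb {n : ℕ} (hn : ¬ IsSquare ((n : ℕ) : ZMod 7)) : (343 : ℤ) ∣ E8X.tau n + 7 * coeff n (bb * Gg) := by
  obtain ⟨V, hV, hD⟩ := exists_V (l := 7) (by norm_num)
  have hV' : E ^ 7 = ex 7 E * (1 + C 7 * V) := hV
  have hD' : D V = - (Sg 1 - ex 7 (Sg 1)) * (1 + C 7 * V) := hD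
  obtain ⟨u, hu⟩ := V7_mod hV'
  have h1 : C 2 * Dl = C 2 * bb + C 21 * (bb * (C 2 * V - C 7 * V ^ 2)) + C 441 * (bb * V ^ 2) +
      C 343 * (C 2 * bb * V ^ 3) := by
    have e : Dl = bb * (1 + C 7 * V) ^ 3 := by
      rw [T5X.Dl_eq, bb, E8X.ex_pow (by norm_num), show (24 : ℕ) = 3 + 7 * 3 from rfl, pow_add, pow_mul, hV']
      ring
    rw [e]
    simp only [show (C 2 : PowerSeries ℤ) = 2 from rfl, show (C 7 : PowerSeries ℤ) = 7 from rfl,
      show (C 21 : PowerSeries ℤ) = 21 from rfl, show (C 441 : PowerSeries ℤ) = 441 from rfl,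
      show (C 343 : PowerSeries ℤ) = 343 from rfl]
    ring
  have h2 := congrArg (coeff n) h1
  simp only [map_add, coeff_C_mul] at h2
  rw [bb_zero hn] at h2
  -- the first term
  have h3 : (49 : ℤ) ∣ coeff n (bb * (C 2 * V - C 7 * V ^ 2)) +
      coeff n (bb * mk fun m => 2 * ((m : ℤ) ^ 41 * (ArithmeticFunction.sigma 1 m : ℤ))) := by
    rw [← map_add, ← mul_add, coeff_mul]
    refine Finset.dvd_sum fun q hq => ?_
    rw [Finset.HasAntidiagonal.mem_antidiagonal] at hq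
    rw [map_add, coeff_mk]
    by_cases hd : 7 ∣ q.2
    · rw [bb_zero (n := q.1) (sq7_sub hn (by omega) (by rwa [show n - q.1 = q.2 by omega])), zero_mul]
      exact dvd_zero _
    · exact Dvd.dvd.mul_left (Z_mod hD' hd) _
  -- the second term
  have h4 : ∃ w, coeff n (bb * V ^ 2) = coeff n (bb * Sg 5 ^ 2) + 7 * w := by
    refine ⟨coeff n (bb * (C (-2) * Sg 5 * u + C 7 * u ^ 2)), ?_⟩
    rw [← coeff_C_mul, ← map_add]
    congr 1
    rw [hu]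
    simp only [map_neg, show (C 2 : PowerSeries ℤ) = 2 from rfl, show (C 7 : PowerSeries ℤ) = 7 from rfl]
    ring
  have h5 : coeff n (bb * Gg) = 3 * coeff n (bb * mk fun m => ((m : ℤ) ^ 41 * (ArithmeticFunction.sigma 1 m : ℤ))) -
      7 * coeff n (bb * Sg 5 ^ 2) := by
    rw [← coeff_C_mul, ← coeff_C_mul, ← map_sub]
    congr 1
    have : Gg = C 3 * (mk fun m => ((m : ℤ) ^ 41 * (ArithmeticFunction.sigma 1 m : ℤ))) - C 7 * Sg 5 ^ 2 := by
      ext m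
      rw [coeff_Gg, map_sub, coeff_C_mul, coeff_C_mul, coeff_mk]
    rw [this]
    ring
  have h6 : coeff n (bb * mk fun m => 2 * ((m : ℤ) ^ 41 * (ArithmeticFunction.sigma 1 m : ℤ))) =
      2 * coeff n (bb * mk fun m => ((m : ℤ) ^ 41 * (ArithmeticFunction.sigma 1 m : ℤ))) := by
    rw [← coeff_C_mul]
    congr 1
    have : (mk fun m => 2 * ((m : ℤ) ^ 41 * (ArithmeticFunction.sigma 1 m : ℤ)) : PowerSeries ℤ) =
        C 2 * (mk fun m => ((m : ℤ) ^ 41 * (ArithmeticFunction.sigma 1 m : ℤ))) := by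
      ext m
      rw [coeff_C_mul, coeff_mk, coeff_mk]
    rw [this]
    ring
  rw [h6] at h3
  obtain ⟨a, ha⟩ := h3
  obtain ⟨w, hw⟩ := h4
  have h7 : E8X.tau n = coeff n Dl := rfl
  rw [h5, h7]
  generalize coeff n Dl = t at *
  generalize coeff n (bb * mk fun m => ((m : ℤ) ^ 41 * (ArithmeticFunction.sigma 1 m : ℤ))) = L at *
  generalize coeff n (bb * Sg 5 ^ 2) = G at *
  generalize coeff n (bb * V ^ 2) = G' at *
  generalize coeff n (bb * (C 2 * V - C 7 * V ^ 2)) = Z at *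
  generalize coeff n (C 2 * bb * V ^ 3) = r at *
  -- 2 t = 21 Z + 441 G' + 343 r
  have h8 : 2 * (t + 7 * (3 * L - 7 * G)) = 343 * (3 * a + G + 9 * w + r) := by
    linear_combination h2 + 21 * ha + 441 * hw
  have h9 : (343 : ℤ) ∣ 2 * (t + 7 * (3 * L - 7 * G)) := ⟨_, h8⟩
  exact (IsCoprime.dvd_of_dvd_mul_left (by norm_num) h9)

end T7X
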