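import Pool.Agent.T7X.F4

/-!
# [T7X-F5] explicit form of the coefficients of `b G`
-/

set_option autoImplicit false

open PowerSeries
open N19 (ex)
open NC11 (D)
open E8X (Sg Dl F3Cl J)
open T5X (E E_zero iv iv_mul D_E)

namespace T7X

/-- `∑_a c(a) X^{T(a)}` -/
noncomputable def sp (T : ℕ → ℕ) (c : ℕ → ℤ) : PowerSeries ℤ :=
  mk fun n => ∑ a ∈ Finset.range (n + 1), if T a = n then c a else 0

theorem coeff_sp {T : ℕ → ℕ} (hT : ∀ a, a ≤ T a) (c : ℕ → ℤ) {n M : ℕ} (hM : n < M) :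
    coeff n (sp T c) = ∑ a ∈ Finset.range M, if T a = n then c a else 0 := by
  rw [sp, coeff_mk]
  refine Finset.sum_subset (Finset.range_mono (by omega)) ?_
  intro a _ ha
  rw [if_neg]
  intro h
  apply ha
  rw [Finset.mem_range]
  have := hT a
  omega

theorem sp_mul {T : ℕ → ℕ} (hT : ∀ a, a ≤ T a) (c : ℕ → ℤ) (H : PowerSeries ℤ) {n M : ℕ} (hM : n < M) :
    coeff n (sp T c * H) = ∑ a ∈ Finset.range M, if T a ≤ n then c a * coeff (n - T a) H else 0 := by
  rw [coeff_mul, Finset.Nat.sum_antidiagonal_eq_sum_range_succ (fun i j => coeff i (sp T c) * coeff j H) n]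
  have h1 : ∀ i ∈ Finset.range (n + 1), coeff i (sp T c) * coeff (n - i) H =
      ∑ a ∈ Finset.range M, if T a = i then c a * coeff (n - i) H else 0 := by
    intro i hi
    rw [Finset.mem_range] at hi
    rw [coeff_sp hT c (show i < M by omega), Finset.sum_mul]
    refine Finset.sum_congr rfl fun a _ => ?_
    rw [ite_mul, zero_mul]
  rw [Finset.sum_congr rfl h1, Finset.sum_comm]
  refine Finset.sum_congr rfl fun a _ => ?_
  by_cases h : T a ≤ n
  · rw [if_pos h, Finset.sum_eq_single (T a), if_pos rfl]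
    · intro b _ hb
      rw [if_neg (fun h => hb h.symm)]
    · intro h2
      exact absurd (Finset.mem_range.2 (by omega)) h2
  · rw [if_neg h]
    refine Finset.sum_eq_zero fun i hi => ?_
    rw [Finset.mem_range] at hi
    rw [if_neg (by omega)]

/-- triangular numbers -/
def tri (a : ℕ) : ℕ := a * (a + 1) / 2

theorem two_tri (a : ℕ) : 2 * tri a = a * (a + 1) := by
  rw [tri]
  exact Nat.two_mul_div_two_of_even (Nat.even_mul_succ_self a)

theorem le_tri (a : ℕ) : a ≤ tri a := by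
  have h := two_tri a
  rcases Nat.eq_zero_or_pos a with rfl | h1
  · exact Nat.zero_le _
  · nlinarith

/-- `(-1)^a (2 a + 1)` -/
def cJ (a : ℕ) : ℤ := (-1) ^ a * (2 * (a : ℤ) + 1)

theorem E3_sp : E ^ 3 = sp tri cJ := by
  ext n
  rw [T5X.coeff_E3, sp, coeff_mk]
  have hsq : ∀ a : ℕ, (2 * a + 1) ^ 2 = 8 * tri a + 1 := by
    intro a
    have h := two_tri a
    nlinarith
  by_cases h : ∃ a, tri a = n
  · obtain ⟨a, ha⟩ := h
    rw [Finset.sum_eq_single a, if_pos ha, ← ha, ← hsq, E8X.m3_coeff, cJ]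
    · intro b _ hb
      rw [if_neg]
      intro h2
      apply hb
      have h3 := hsq a
      have h4 := hsq b
      rw [ha] at h3
      rw [h2] at h4
      have h5 : (2 * b + 1) ^ 2 = (2 * a + 1) ^ 2 := by rw [h3, h4]
      have h6 := Nat.pow_left_injective (n := 2) (by norm_num) h5
      omega
    · intro h2
      exfalso
      apply h2
      rw [Finset.mem_range]
      have := le_tri a
      omega
  · rw [Finset.sum_eq_zero]
    · refine E8X.m3_coeff_zero fun j hj => h ⟨j, ?_⟩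
      have := hsq j
      omega
    · intro a _
      rw [if_neg (fun h2 => h ⟨a, h2⟩)]

theorem ex_sp {k : ℕ} (hk : 0 < k) {T : ℕ → ℕ} (hT : ∀ a, a ≤ T a) (c : ℕ → ℤ) :
    ex k (sp T c) = sp (fun a => k * T a) c := by
  ext n
  rw [E8X.f3_coeff_ex]
  by_cases h : k ∣ n
  · obtain ⟨m, rfl⟩ := h
    rw [if_pos (dvd_mul_right _ _), Nat.mul_div_cancel_left m hk, coeff_sp hT c (show m < k * m + 1 by nlinarith),
      sp, coeff_mk]
    refine Finset.sum_congr rfl fun a _ => ?_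
    have : k * T a = k * m ↔ T a = m := by
      constructor
      · intro h
        exact Nat.eq_of_mul_eq_mul_left hk h
      · intro h
        rw [h]
    simp only [this]
  · rw [if_neg h, sp, coeff_mk, Finset.sum_eq_zero]
    intro a _
    rw [if_neg]
    intro h2
    exact h ⟨T a, h2.symm⟩

/-- `∑_{a, b ≥ 0} (-1)^(a+b) (2a+1) (2b+1) g(n - 1 - a(a+1)/2 - 7 b(b+1)/2)` -/
def W7 (n : ℕ) : ℤ := ∑ a ∈ Finset.range n, ∑ b ∈ Finset.range n,
  if a * (a + 1) / 2 + 7 * (b * (b + 1) / 2) < n then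
    (-1) ^ (a + b) * (2 * (a : ℤ) + 1) * (2 * (b : ℤ) + 1) * g7 (n - 1 - a * (a + 1) / 2 - 7 * (b * (b + 1) / 2)) else 0

theorem coeff_bG (n : ℕ) : coeff n (bb * Gg) = W7 n := by
  rcases Nat.eq_zero_or_pos n with rfl | hpos
  · rw [W7, bb]
    simp
  obtain ⟨k, rfl⟩ : ∃ k, n = k + 1 := ⟨n - 1, by omega⟩
  have h7 : ∀ a, a ≤ 7 * tri a := by
    intro a
    have := le_tri a
    omega
  rw [bb, mul_assoc, mul_assoc, coeff_succ_X_mul, E3_sp, ex_sp (by norm_num) le_tri,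
    sp_mul le_tri cJ _ (show k < k + 1 by omega), W7]
  refine Finset.sum_congr rfl fun a _ => ?_
  by_cases ha : tri a ≤ k
  · rw [if_pos ha, sp_mul h7 cJ _ (show k - tri a < k + 1 by omega), Finset.mul_sum]
    refine Finset.sum_congr rfl fun b _ => ?_
    have ht : ∀ x : ℕ, x * (x + 1) / 2 = tri x := fun x => rfl
    rw [ht, ht]
    by_cases hb : 7 * tri b ≤ k - tri a
    · rw [if_pos hb, if_pos (by omega), Gg, coeff_mk, cJ, cJ, pow_add]
      have : k + 1 - 1 - tri a - 7 * tri b = k - tri a - 7 * tri b := by omega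
      rw [this]
      ring
    · rw [if_neg hb, if_neg (by omega), mul_zero]
  · rw [if_neg ha, Finset.sum_eq_zero]
    intro b _
    rw [if_neg]
    have ht : a * (a + 1) / 2 = tri a := rfl
    rw [ht]
    omega

/-- for `n` not a square modulo `7`, `τ(n)` is `-7 W7(n)` modulo `343` -/
theorem tau_343 {n : ℕ} (hn : ¬ IsSquare ((n : ℕ) : ZMod 7)) : (343 : ℤ) ∣ E8X.tau n + 7 * W7 n := by
  rw [← coeff_bG]
  exact tau_bb hn

theorem Q2_eq : (1 + 240 * Sg 3) ^ 2 = 1 + 480 * Sg 7 := by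
  have h4 := E8X.eis_ev (k := 4) (by norm_num) ⟨2, rfl⟩ 240 1 (by norm_num) (by exact E8X.bern4)
  have h4' : (C 1 + C 240 * Sg (4 - 1) : PowerSeries ℤ) = 1 + 240 * Sg 3 := rfl
  rw [h4'] at h4
  have hb8 : (2 * (8 : ℕ) / bernoulli 8 : ℚ) = -(480 : ℤ) / (1 : ℤ) := by
    rw [show bernoulli 8 = -1 / 30 by decide +kernel]
    norm_num
  have h8 := E8X.eis_ev (k := 8) (by norm_num) ⟨4, rfl⟩ 480 1 (by norm_num) (by exact hb8)
  have h8' : (C 1 + C 480 * Sg (8 - 1) : PowerSeries ℤ) = 1 + 480 * Sg 7 := rfl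
  rw [h8'] at h8
  have c3 : constantCoeff (Sg 3) = 0 := by
    rw [← coeff_zero_eq_constantCoeff_apply, E8X.coeff_zero_Sg]
  have c7 : constantCoeff (Sg 7) = 0 := by
    rw [← coeff_zero_eq_constantCoeff_apply, E8X.coeff_zero_Sg]
  have h := E8X.cusp_zero (k := 8) (by norm_num) ((h4.pow 2).sub h8) (by
    rw [coeff_zero_eq_constantCoeff_apply]
    simp [c3, c7]) (by
    intro z hz
    rw [E8X.eis_S _ hz, E8X.eis_S _ hz]
    push_cast
    ring)
  exact sub_eq_zero.1 h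

/-- `σ₇ = σ` modulo `7` -/
theorem P_mod : ∃ w : PowerSeries ℤ, T5X.P = (1 + 240 * Sg 3) ^ 2 + C 7 * w := by
  have h : ∀ n, (7 : ℤ) ∣ (ArithmeticFunction.sigma 7 n : ℤ) - (ArithmeticFunction.sigma 1 n : ℤ) := by
    intro n
    rw [ArithmeticFunction.sigma_apply, ArithmeticFunction.sigma_apply]
    push_cast
    rw [← Finset.sum_sub_distrib]
    refine Finset.dvd_sum fun d _ => ?_
    have h1 := ZMod.intCast_zmod_eq_zero_iff_dvd ((d : ℤ) ^ 7 - (d : ℤ) ^ 1) 7
    refine h1.1 ?_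
    push_cast
    generalize (d : ZMod 7) = x
    revert x
    decide
  choose w hw using h
  refine ⟨C (-24) * Sg 1 * 0 + mk (fun n => - 24 * 0 - 72 * (ArithmeticFunction.sigma 1 n : ℤ) - 480 * w n), ?_⟩
  rw [Q2_eq, T5X.P]
  ext n
  rw [show (24 : PowerSeries ℤ) = C 24 from rfl, show (480 : PowerSeries ℤ) = C 480 from rfl]
  simp only [map_add, map_sub, coeff_C_mul, coeff_mk, Sg, mul_zero, map_zero]
  linear_combination (-480 : ℤ) * hw n

/-- `τ(n) = n σ₃(n)` modulo `7` -/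
theorem tau_mod7 (n : ℕ) : (7 : ℤ) ∣ E8X.tau n - n * (ArithmeticFunction.sigma 3 n : ℤ) := by
  obtain ⟨w, hw⟩ := P_mod
  have h1 := congrArg D E8X.S11_eq
  have hQ : D ((1 + 240 * Sg 3) ^ 3) = 3 * (1 + 240 * Sg 3) ^ 2 * (240 * D (Sg 3)) := by
    have h2 : D (1 + 240 * Sg 3) = 240 * D (Sg 3) := by
      have hD1 : D (1 : PowerSeries ℤ) = 0 := T5X.Dg_one
      rw [D_add', hD1, show (240 : PowerSeries ℤ) = C 240 from rfl, D_Cmul, zero_add]
    rw [show (3 : ℕ) = 2 + 1 from rfl, T5X.Dg_pow, h2]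
    push_cast
    ring
  rw [show (691 : PowerSeries ℤ) = C 691 from rfl, show (65520 : PowerSeries ℤ) = C 65520 from rfl,
    show (432000 : PowerSeries ℤ) = C 432000 from rfl, D_add', E8T.D_C, D_Cmul, D_sub', D_Cmul, D_Cmul, hQ, T5X.D_Dl,
    hw] at h1
  generalize hQQ : (1 + 240 * Sg 3 : PowerSeries ℤ) = Q at h1
  have hQ0 : constantCoeff Q = 1 := by
    rw [← hQQ, ← coeff_zero_eq_constantCoeff_apply, show (240 : PowerSeries ℤ) = C 240 from rfl, map_add, coeff_C_mul,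
      E8X.coeff_zero_Sg]
    simp
  have hQ2 : constantCoeff (Q ^ 2) = 1 := by rw [map_pow, hQ0, one_pow]
  have hi := iv_mul hQ2
  simp only [show (C 691 : PowerSeries ℤ) = 691 from rfl, show (C 65520 : PowerSeries ℤ) = 65520 from rfl,
    show (C 432000 : PowerSeries ℤ) = 432000 from rfl, show (C 7 : PowerSeries ℤ) = 7 from rfl] at h1
  have h3 : C 2 * (Dl - D (Sg 3)) = C 7 * (iv (Q ^ 2) * (-9360 * D (Sg 11) - 432000 * w * Dl) - 61714 * Dl +
      71074 * D (Sg 3)) := by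
    rw [show (C 2 : PowerSeries ℤ) = 2 from rfl, show (C 7 : PowerSeries ℤ) = 7 from rfl]
    linear_combination (iv (Q ^ 2)) * h1 - (432000 * Dl - 497520 * D (Sg 3)) * hi
  have h4 := congrArg (coeff n) h3
  rw [coeff_C_mul, coeff_C_mul, map_sub] at h4
  have h5 : coeff n (D (Sg 3)) = n * (ArithmeticFunction.sigma 3 n : ℤ) := by
    rw [D, coeff_mk, Sg, coeff_mk]
  rw [h5] at h4
  have h6 : (7 : ℤ) ∣ 2 * (E8X.tau n - n * (ArithmeticFunction.sigma 3 n : ℤ)) := ⟨_, h4⟩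
  exact IsCoprime.dvd_of_dvd_mul_left (by norm_num) h6

/-- a prime `p` with `τ(p) = 0` is not a square modulo `7` -/
theorem not_square7 {p : ℕ} (hp : p.Prime) (h : E8X.tau p = 0) : ¬ IsSquare ((p : ℕ) : ZMod 7) := by
  have h1 := tau_mod7 p
  rw [h, E8X.g2_sigma hp, zero_sub, dvd_neg] at h1
  have h2 := (ZMod.intCast_zmod_eq_zero_iff_dvd _ 7).2 h1
  push_cast at h2
  intro hs
  have h3 : ((p : ℕ) : ZMod 7) = 0 := by
    generalize ((p : ℕ) : ZMod 7) = x at h2 hs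
    revert x
    decide
  have h4 : 7 ∣ p := (ZMod.natCast_eq_zero_iff p 7).1 h3
  have h5 : p = 7 := ((Nat.prime_dvd_prime_iff_eq (by norm_num) hp).1 h4).symm
  subst h5
  obtain ⟨z, hz, -⟩ := E8X.prime_cond hp h
  push_cast at hz
  omega

theorem prime_cond7 {p : ℕ} (hp : p.Prime) (h : E8X.tau p = 0) : (49 : ℤ) ∣ W7 p := by
  have h1 := tau_343 (not_square7 hp h)
  rw [h, zero_add, show (343 : ℤ) = 7 * 49 by norm_num] at h1
  exact (mul_dvd_mul_iff_left (by norm_num : (7 : ℤ) ≠ 0)).1 h1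

end T7X
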